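import Pool.Agent.Q283.TE.Gad
import Pool.Agent.Q283.TQ.Elem

/-!
# The common twist
-/

set_option autoImplicit false
set_option linter.unusedSectionVars false

open scoped Classical

namespace Q283.TE

open Finset
open Pool.Agent.Y703.CX
open Pool.Agent.Y703.CT (Cls NoSplit Base)
open Q283.TQ

section
variable {ι : Type}

/-- the product of the new primes is squarefree, its primes are the new primes -/
theorem New.prod {D : ℕ} (J : Finset ι) {ℓ : ι → ℕ} (h : New D J ℓ) :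
    Squarefree (∏ j ∈ J, ℓ j) ∧ (∏ j ∈ J, ℓ j).primeFactors = J.image ℓ ∧
      (∏ j ∈ J, ℓ j) % 9 = 1 := by
  induction J using Finset.induction_on with
  | empty => simp
  | insert j J hj ih =>
    have hm := h.mono (Finset.subset_insert j J)
    obtain ⟨i1, i2, i3⟩ := ih hm
    have h1 := h.pr j (Finset.mem_insert_self _ _)
    rw [Finset.prod_insert hj]
    have hnd : ¬ ℓ j ∣ ∏ k ∈ J, ℓ k := fun hd => (h.not_dvd hj) (hd.mul_left _)
    have hco : Nat.Coprime (ℓ j) (∏ k ∈ J, ℓ k) := (Nat.Prime.coprime_iff_not_dvd h1.1).2 hnd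
    refine ⟨?_, ?_, ?_⟩
    · exact (Nat.squarefree_mul hco).2 ⟨h1.1.prime.squarefree, i1⟩
    · rw [hco.primeFactors_mul, i2, h1.1.primeFactors, Finset.image_insert]
      rfl
    · rw [Nat.mul_mod, h1.2.1, i3]

end

section
variable {n : ℕ} (D : Fin n → ℕ) (hD : ∀ i, Bs (D i))

include hD in
/-- **The common twist.** -/
theorem common (hn : 0 < n) : ∃ m : ℕ, Squarefree m ∧ m % 9 = 1 ∧
    m.primeFactors.card = 2 * (R1 D).card ∧
    (∀ p ∈ m.primeFactors, p % 9 = 1 ∧ ∀ i, ¬ p ∣ D i) ∧ (∀ i, Bs (D i * m)) ∧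
    0 < cQ (fun i => D i * m) := by
  obtain ⟨ℓ, a, b, h1, h2⟩ := exists_twist D hD hn
  set J : Finset (ℕ × Bool) := R1 D ×ˢ (Finset.univ : Finset Bool) with hJ
  obtain ⟨hs, hp, h9⟩ := (h1 ⟨0, hn⟩).prod
  refine ⟨∏ j ∈ J, ℓ j, hs, h9, ?_, ?_, fun i => (h1 i).bs (hD i) J, ?_⟩
  · rw [hp, Finset.card_image_of_injOn, hJ, Finset.card_product, Finset.card_univ,
      Fintype.card_bool, mul_comm]
    intro j hj k hk hjk
    by_contra hne
    exact (h1 ⟨0, hn⟩).inj j hj k hk hne hjk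
  · intro p hpm
    rw [hp] at hpm
    obtain ⟨j, hj, rfl⟩ := Finset.mem_image.1 hpm
    exact ⟨((h1 ⟨0, hn⟩).pr j hj).2.1, fun i => ((h1 i).pr j hj).2.2⟩
  · set D' : Fin n → ℕ := fun i => D i * ∏ j ∈ J, ℓ j with hD'
    unfold cQ
    refine div_pos ?_ (by positivity)
    have hne : Nonempty {y : (R1 D' → ZMod 3) × (RR D' → ZMod 3) //
        ∀ i, NSg (D' i) (exN (R1 D') y.1) (exN (RR D') y.2)} := by
      refine ⟨⟨(fun p => a p, fun r => b r), fun i =>
        (h2 i).congr (fun p hp h1 => ?_) (fun p hp => ?_)⟩⟩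
      · have hm : p ∈ R1 D' := Finset.mem_filter.2 ⟨mem_RR D' hp, h1⟩
        unfold exN
        rw [dif_pos hm]
      · unfold exN
        rw [dif_pos (mem_RR D' hp)]
    have := Nat.card_pos (α := {y : (R1 D' → ZMod 3) × (RR D' → ZMod 3) //
        ∀ i, NSg (D' i) (exN (R1 D') y.1) (exN (RR D') y.2)})
    exact_mod_cast this

theorem clsN_mul {m : ℕ} (hm : m % 9 = 1) : clsN (fun i => D i * m) = clsN D := by
  unfold clsN
  congr 1
  refine Finset.filter_congr fun r _ => ?_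
  refine forall_congr' fun i => ?_
  have : D i * m * r % 9 = D i * r % 9 := by
    rw [Nat.mul_mod, Nat.mul_mod (D i) m, hm, mul_one, Nat.mod_mod, ← Nat.mul_mod]
  rw [this]

end

end Q283.TE
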