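import Pool.Agent.Q283.TE.Pre

/-!
# A common twist for any finite family
-/

set_option autoImplicit false
set_option linter.unusedSectionVars false

open scoped Classical

namespace Q283.TE

open Finset
open Pool.Agent.Y703.CX
open Pool.Agent.Y703.CT (Cls NoSplit Base)
open Q283.TQ

section
variable {ι : Type}

/-- the conditions on the new primes -/
structure New (D : ℕ) (J : Finset ι) (ℓ : ι → ℕ) : Prop where
  pr : ∀ j ∈ J, (ℓ j).Prime ∧ ℓ j % 9 = 1 ∧ ¬ ℓ j ∣ D
  inj : ∀ j ∈ J, ∀ k ∈ J, j ≠ k → ℓ j ≠ ℓ k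

theorem New.mono {D : ℕ} {J J' : Finset ι} {ℓ : ι → ℕ} (h : New D J ℓ) (hs : J' ⊆ J) :
    New D J' ℓ :=
  ⟨fun j hj => h.pr j (hs hj), fun j hj k hk => h.inj j (hs hj) k (hs hk)⟩

theorem New.not_dvd {D : ℕ} {J : Finset ι} {ℓ : ι → ℕ} {j : ι} (hj : j ∉ J)
    (h : New D (insert j J) ℓ) : ¬ ℓ j ∣ D * ∏ k ∈ J, ℓ k := by
  have hjp := h.pr j (Finset.mem_insert_self _ _)
  intro hd
  rcases hjp.1.dvd_mul.1 hd with h1 | h1
  · exact hjp.2.2 h1
  · obtain ⟨k, hk, hd⟩ := (hjp.1.prime.dvd_finsetProd_iff _).1 h1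
    have hkp := h.pr k (Finset.mem_insert_of_mem hk)
    have hne : j ≠ k := by rintro rfl; exact hj hk
    exact h.inj j (Finset.mem_insert_self _ _) k (Finset.mem_insert_of_mem hk) hne
      ((Nat.prime_dvd_prime_iff_eq hjp.1 hkp.1).1 hd)

theorem prod_ins (D : ℕ) (J : Finset ι) (ℓ : ι → ℕ) {j : ι} (hj : j ∉ J) :
    D * ∏ k ∈ insert j J, ℓ k = (D * ∏ k ∈ J, ℓ k) * ℓ j := by
  rw [Finset.prod_insert hj]
  ring

theorem New.bs {D : ℕ} (hD : Bs D) (J : Finset ι) {ℓ : ι → ℕ} (h : New D J ℓ) :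
    Bs (D * ∏ j ∈ J, ℓ j) := by
  induction J using Finset.induction_on with
  | empty => simpa using hD
  | insert j J hj ih =>
    rw [prod_ins D J ℓ hj]
    have h1 := h.pr j (Finset.mem_insert_self _ _)
    exact bs_mul (ih (h.mono (Finset.subset_insert _ _))) h1.1 (by omega) (h.not_dvd hj)

theorem New.mem_pf {D : ℕ} (hD : Bs D) (J : Finset ι) {ℓ : ι → ℕ} (h : New D J ℓ) (p : ℕ) :
    p ∈ (D * ∏ j ∈ J, ℓ j).primeFactors ↔ p ∈ D.primeFactors ∨ ∃ j ∈ J, p = ℓ j := by
  induction J using Finset.induction_on with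
  | empty => simp
  | insert j J hj ih =>
    have hm := h.mono (Finset.subset_insert j J)
    have h1 := h.pr j (Finset.mem_insert_self _ _)
    rw [prod_ins D J ℓ hj, pf_mul (hm.bs hD J).ne_zero h1.1, Finset.mem_insert, ih hm]
    constructor
    · rintro (h2 | h2 | ⟨k, hk, h2⟩)
      · exact Or.inr ⟨j, Finset.mem_insert_self _ _, h2⟩
      · exact Or.inl h2
      · exact Or.inr ⟨k, Finset.mem_insert_of_mem hk, h2⟩
    · rintro (h2 | ⟨k, hk, h2⟩)
      · exact Or.inr (Or.inl h2)
      · rcases Finset.mem_insert.1 hk with rfl | hk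
        · exact Or.inl h2
        · exact Or.inr (Or.inr ⟨k, hk, h2⟩)

theorem New.sum_pf {D : ℕ} (hD : Bs D) (J : Finset ι) {ℓ : ι → ℕ} (h : New D J ℓ)
    (F : ℕ → ZMod 3) :
    ∑ r ∈ (D * ∏ j ∈ J, ℓ j).primeFactors, mu (D * ∏ j ∈ J, ℓ j) r * F r =
      ∑ r ∈ D.primeFactors, mu D r * F r + ∑ j ∈ J, F (ℓ j) := by
  induction J using Finset.induction_on with
  | empty => simp
  | insert j J hj ih =>
    have hm := h.mono (Finset.subset_insert j J)
    have h1 := h.pr j (Finset.mem_insert_self _ _)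
    have h0 := (hm.bs hD J).ne_zero
    have hnd := h.not_dvd hj
    rw [prod_ins D J ℓ hj, pf_mul h0 h1.1, Finset.sum_insert (not_mem_pf hnd),
      mu_mul_self h0 h1.1 hnd, Finset.sum_insert hj, one_mul]
    have e : ∑ r ∈ (D * ∏ k ∈ J, ℓ k).primeFactors, mu (D * (∏ k ∈ J, ℓ k) * ℓ j) r * F r =
        ∑ r ∈ (D * ∏ k ∈ J, ℓ k).primeFactors, mu (D * ∏ k ∈ J, ℓ k) r * F r := by
      refine Finset.sum_congr rfl fun r hr => ?_
      rw [mu_mul h0 h1.1]
      rintro rfl
      exact not_mem_pf hnd hr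
    rw [e, ih hm]
    ring

variable {n : ℕ} (D : Fin n → ℕ) (hD : ∀ i, Bs (D i))

include hD in
/-- **Primes with prescribed symbols with respect to the family and trivial mutual symbols.** -/
theorem exists_primes (hn : 0 < n) (J : Finset ι) (α β : ι → ℕ → ZMod 3) : ∃ ℓ : ι → ℕ,
    (∀ i, New (D i) J ℓ) ∧ (∀ j ∈ J, ∀ s ∈ R1 D, lam s (ℓ j) = α j s) ∧
    (∀ j ∈ J, ∃ ε : ZMod 3, ε * ε = 1 ∧ ∀ r ∈ RR D, lam (ℓ j) r = ε * β j r) ∧
    (∀ j ∈ J, ∀ k ∈ J, j ≠ k → lam (ℓ j) (ℓ k) = 0) := by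
  induction J using Finset.induction_on with
  | empty =>
    exact ⟨fun _ => 0, fun i => ⟨fun j hj => absurd hj (Finset.notMem_empty j),
      fun j hj => absurd hj (Finset.notMem_empty j)⟩, fun j hj => absurd hj (Finset.notMem_empty j),
      fun j hj => absurd hj (Finset.notMem_empty j), fun j hj => absurd hj (Finset.notMem_empty j)⟩
  | insert j0 J hj0 ih =>
    obtain ⟨ℓ, h1, h2, h3, h4⟩ := ih
    set D' : Fin n → ℕ := fun i => D i * ∏ j ∈ J, ℓ j with hD'
    have hB' : ∀ i, Bs (D' i) := fun i => (h1 i).bs (hD i) J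
    have hRR : ∀ p, p ∈ RR D' ↔ p ∈ RR D ∨ ∃ j ∈ J, p = ℓ j := by
      intro p
      unfold Q283.TQ.RR
      rw [Finset.mem_biUnion, Finset.mem_biUnion]
      constructor
      · rintro ⟨i, hi, hp⟩
        rcases ((h1 i).mem_pf (hD i) J p).1 hp with h | h
        · exact Or.inl ⟨i, hi, h⟩
        · exact Or.inr h
      · rintro (⟨i, hi, hp⟩ | h)
        · exact ⟨i, hi, ((h1 i).mem_pf (hD i) J p).2 (Or.inl hp)⟩
        · exact ⟨⟨0, hn⟩, Finset.mem_univ _, ((h1 _).mem_pf (hD _) J p).2 (Or.inr h)⟩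
    have hnot : ∀ j ∈ J, ℓ j ∉ RR D := by
      intro j hj h
      obtain ⟨i, -, h⟩ := Finset.mem_biUnion.1 h
      exact ((h1 i).pr j hj).2.2 (Nat.dvd_of_mem_primeFactors h)
    obtain ⟨l, hl, hl9, hlB, hlD, ha, hb⟩ := exists_prime D' hB'
      (fun p => if p ∈ RR D then α j0 p else 0) (fun r => if r ∈ RR D then β j0 r else 0)
      (∑ j ∈ J, ℓ j)
    have hlne : ∀ j ∈ J, ℓ j ≠ l := by
      intro j hj h
      have := Finset.single_le_sum (f := fun j => ℓ j) (fun _ _ => Nat.zero_le _) hj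
      omega
    have hR1 : ∀ s ∈ R1 D, s ∈ R1 D' := by
      intro s hs
      obtain ⟨a, b⟩ := Finset.mem_filter.1 hs
      exact Finset.mem_filter.2 ⟨(hRR s).2 (Or.inl a), b⟩
    have hRl : ∀ j ∈ J, ℓ j ∈ R1 D' := by
      intro j hj
      have := ((h1 ⟨0, hn⟩).pr j hj).2.1
      exact Finset.mem_filter.2 ⟨(hRR _).2 (Or.inr ⟨j, hj, rfl⟩), by omega⟩
    have hu : ∀ j ∈ J, Function.update ℓ j0 l j = ℓ j := by
      intro j hj
      rw [Function.update_of_ne]
      rintro rfl
      exact hj0 hj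
    have hu0 : Function.update ℓ j0 l j0 = l := Function.update_self _ _ _
    refine ⟨Function.update ℓ j0 l, ?_, ?_, ?_, ?_⟩
    · intro i
      refine ⟨fun j hj => ?_, fun j hj k hk hjk => ?_⟩
      · rcases Finset.mem_insert.1 hj with hj' | hj'
        · subst hj'
          rw [hu0]
          exact ⟨hl, hl9, fun h => hlD i (h.mul_right _)⟩
        · rw [hu j hj']
          exact (h1 i).pr j hj'
      · rcases Finset.mem_insert.1 hj with hj' | hj'
        · subst hj'
          rcases Finset.mem_insert.1 hk with hk' | hk'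
          · exact absurd hk'.symm hjk
          · rw [hu0, hu k hk']
            exact (hlne k hk').symm
        · rcases Finset.mem_insert.1 hk with hk' | hk'
          · subst hk'
            rw [hu0, hu j hj']
            exact hlne j hj'
          · rw [hu j hj', hu k hk']
            exact (h1 i).inj j hj' k hk' hjk
    · intro j hj s hs
      rcases Finset.mem_insert.1 hj with hj' | hj'
      · subst hj'
        rw [hu0, ha s (hR1 s hs), if_pos (Finset.mem_filter.1 hs).1]
      · rw [hu j hj']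
        exact h2 j hj' s hs
    · intro j hj
      rcases Finset.mem_insert.1 hj with hj' | hj'
      · subst hj'
        rw [hu0]
        rcases hb with hb | hb
        · refine ⟨1, by decide, fun r hr => ?_⟩
          rw [hb r ((hRR r).2 (Or.inl hr)), if_pos hr, one_mul]
        · refine ⟨-1, by decide, fun r hr => ?_⟩
          rw [hb r ((hRR r).2 (Or.inl hr)), if_pos hr, neg_one_mul]
      · rw [hu j hj']
        exact h3 j hj'
    · intro j hj k hk hjk
      rcases Finset.mem_insert.1 hj with hj' | hj'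
      · subst hj'
        rcases Finset.mem_insert.1 hk with hk' | hk
        · exact absurd hk'.symm hjk
        · rw [hu0, hu k hk]
          have hm := (hRR (ℓ k)).2 (Or.inr ⟨k, hk, rfl⟩)
          rcases hb with hb | hb
          · rw [hb _ hm, if_neg (hnot k hk)]
          · rw [hb _ hm, if_neg (hnot k hk), neg_zero]
      · rcases Finset.mem_insert.1 hk with hk' | hk
        · subst hk'
          rw [hu0, hu j hj', ha _ (hRl j hj'), if_neg (hnot j hj')]
        · rw [hu j hj', hu k hk]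
          exact h4 j hj' k hk hjk

end

/-! ## the gadget -/

theorem gadget (μ x y z : ZMod 3) (h : μ ≠ 0) (h1 : μ * (x - y) = 2 * y) (h2 : μ * (x - z) = 1 * z) :
    x = 0 ∧ (y = 0 ∨ z = 0) := by
  revert μ x y z
  decide

section
variable {n : ℕ} (D : Fin n → ℕ) (hD : ∀ i, Bs (D i))

include hD in
theorem exists_twist (hn : 0 < n) : ∃ (ℓ : ℕ × Bool → ℕ) (a b : ℕ → ZMod 3),
    (∀ i, New (D i) (R1 D ×ˢ Finset.univ) ℓ) ∧
    ∀ i, NSg (D i * ∏ j ∈ R1 D ×ˢ (Finset.univ : Finset Bool), ℓ j) a b := by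
  set J : Finset (ℕ × Bool) := R1 D ×ˢ (Finset.univ : Finset Bool) with hJ
  obtain ⟨ℓ, h1, h2, h3, h4⟩ := exists_primes D hD hn J
    (fun j s => if s = j.1 then 1 else 0) (fun j r => if r = j.1 then 1 else 0)
  set cc : Bool → ZMod 3 := fun t => if t then 2 else 1 with hcc
  set a : ℕ → ZMod 3 := fun p => if h : ∃ j ∈ J, ℓ j = p then
    cc h.choose.2 * lam p h.choose.1 else 0 with ha
  refine ⟨ℓ, a, fun r => if r % 3 = 2 then 1 else 0, h1, fun i g hE hb => ?_⟩
  have hb : ∑ r ∈ (D i * ∏ j ∈ J, ℓ j).primeFactors,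
      mu (D i * ∏ j ∈ J, ℓ j) r * (if r % 3 = 2 then (1 : ZMod 3) else 0) * g r = 0 := hb
  have hinj := (h1 i).inj
  have haj : ∀ j ∈ J, a (ℓ j) = cc j.2 * lam (ℓ j) j.1 := by
    intro j hj
    have hex : ∃ k ∈ J, ℓ k = ℓ j := ⟨j, hj, rfl⟩
    have hch : hex.choose = j := by
      by_contra hne
      exact hinj _ hex.choose_spec.1 j hj hne hex.choose_spec.2
    simp only [ha]
    rw [dif_pos hex, hch]
  have has : ∀ s ∈ (D i).primeFactors, a s = 0 := by
    intro s hs
    simp only [ha]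
    rw [dif_neg]
    rintro ⟨j, hj, rfl⟩
    exact ((h1 i).pr j hj).2.2 (Nat.dvd_of_mem_primeFactors hs)
  have hsum := (h1 i).sum_pf (hD i) J
  have hmem := (h1 i).mem_pf (hD i) J
  -- the prime `q = 2` modulo `3`
  obtain ⟨q, hq, hq2, hqD, hall⟩ := (hD i).2
  have h0 : D i ≠ 0 := (hD i).ne_zero
  have hqm : q ∈ (D i).primeFactors := Nat.mem_primeFactors.2 ⟨hq, hqD, h0⟩
  have hS : ∀ p ∈ (D i).primeFactors, p ≠ q → p % 3 = 1 := fun p hp hpq =>
    hall p (Nat.prime_of_mem_primeFactors hp) (Nat.dvd_of_mem_primeFactors hp) hpq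
  have hgq : g q = 0 := by
    have e := hsum fun r => (if r % 3 = 2 then (1 : ZMod 3) else 0) * g r
    simp only [← mul_assoc] at e
    rw [hb] at e
    have e1 : ∑ j ∈ J, (if ℓ j % 3 = 2 then (1 : ZMod 3) else 0) * g (ℓ j) = 0 := by
      refine Finset.sum_eq_zero fun j hj => ?_
      have := ((h1 i).pr j hj).2.1
      rw [if_neg (by omega), zero_mul]
    have e2 : ∑ r ∈ (D i).primeFactors, mu (D i) r * (if r % 3 = 2 then (1 : ZMod 3) else 0) * g r
        = mu (D i) q * g q := by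
      rw [Finset.sum_eq_single q]
      · rw [if_pos hq2, mul_one]
      · intro p hp hpq
        have := hS p hp hpq
        rw [if_neg (by omega), mul_zero, zero_mul]
      · intro h
        exact absurd hqm h
    rw [e1, e2, add_zero] at e
    rcases mul_eq_zero.1 e.symm with h | h
    · exact absurd h ((hD i).mu_ne q hqm)
    · exact h
  -- the equations of the new primes
  have hEl : ∀ j ∈ J, ∃ ε : ZMod 3, ε * ε = 1 ∧
      (if j.1 ∈ (D i).primeFactors then mu (D i) j.1 * (ε * (g j.1 - g (ℓ j))) else 0) =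
        cc j.2 * ε * g (ℓ j) := by
    intro j hj
    obtain ⟨ε, hε, hε2⟩ := h3 j hj
    refine ⟨ε, hε, ?_⟩
    have hjR : j.1 ∈ RR D := (Finset.mem_filter.1 (Finset.mem_product.1 hj).1).1
    have hj3 : ℓ j % 3 = 1 := by
      have := ((h1 i).pr j hj).2.1
      omega
    have e := hE (ℓ j) ((hmem _).2 (Or.inr ⟨j, hj, rfl⟩)) hj3
    have e1 := hsum fun r => lam (ℓ j) r * (g r - g (ℓ j))
    simp only [← mul_assoc] at e1
    rw [e1, haj j hj] at e
    have e2 : ∑ k ∈ J, lam (ℓ j) (ℓ k) * (g (ℓ k) - g (ℓ j)) = 0 := by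
      refine Finset.sum_eq_zero fun k hk => ?_
      by_cases hjk : j = k
      · rw [hjk, sub_self, mul_zero]
      · rw [h4 j hj k hk hjk, zero_mul]
    have e3 : ∑ r ∈ (D i).primeFactors, mu (D i) r * lam (ℓ j) r * (g r - g (ℓ j)) =
        if j.1 ∈ (D i).primeFactors then mu (D i) j.1 * (ε * (g j.1 - g (ℓ j))) else 0 := by
      have e4 : ∀ r ∈ (D i).primeFactors, mu (D i) r * lam (ℓ j) r * (g r - g (ℓ j)) =
          if r = j.1 then mu (D i) r * (ε * (g r - g (ℓ j))) else 0 := by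
        intro r hr
        rw [hε2 r (mem_RR D hr)]
        split_ifs with h
        · ring
        · ring
      rw [Finset.sum_congr rfl e4, Finset.sum_ite_eq']
    rw [e2, e3, add_zero] at e
    rw [e, hε2 j.1 hjR]
    simp
  have hc1 : cc true = 2 := rfl
  have hc2 : cc false = 1 := rfl
  have hcc0 : ∀ t, cc t ≠ 0 := by
    intro t
    cases t
    · rw [hc2]; decide
    · rw [hc1]; decide
  have hout : ∀ j ∈ J, j.1 ∉ (D i).primeFactors → g (ℓ j) = 0 := by
    intro j hj hn
    obtain ⟨ε, hε, e⟩ := hEl j hj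
    rw [if_neg hn] at e
    have hε0 : ε ≠ 0 := by
      rintro rfl
      revert hε
      decide
    rcases mul_eq_zero.1 e.symm with h | h
    · rcases mul_eq_zero.1 h with h | h
      · exact absurd h (hcc0 _)
      · exact absurd h hε0
    · exact h
  have hin : ∀ s ∈ (D i).primeFactors, s % 3 = 1 → g s = 0 ∧
      (g (ℓ (s, true)) = 0 ∨ g (ℓ (s, false)) = 0) := by
    intro s hs hs1
    have hsR : s ∈ R1 D := Finset.mem_filter.2 ⟨mem_RR D hs, hs1⟩
    have hm : ∀ t, (s, t) ∈ J := fun t => Finset.mem_product.2 ⟨hsR, Finset.mem_univ _⟩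
    have key : ∀ t, mu (D i) s * (g s - g (ℓ (s, t))) = cc t * g (ℓ (s, t)) := by
      intro t
      obtain ⟨ε, hε, e⟩ := hEl (s, t) (hm t)
      rw [if_pos hs] at e
      linear_combination ε * e - (mu (D i) s * (g s - g (ℓ (s, t))) - cc t * g (ℓ (s, t))) * hε
    exact gadget _ _ _ _ ((hD i).mu_ne s hs) (key true) (key false)
  have hgs : ∀ s ∈ (D i).primeFactors, g s = 0 := by
    intro s hs
    by_cases hsq : s = q
    · rw [hsq]; exact hgq
    · exact (hin s hs (hS s hs hsq)).1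
  have hgl : ∀ j ∈ J, g (ℓ j) = 0 := by
    intro j hj
    by_cases hjs : j.1 ∈ (D i).primeFactors
    · obtain ⟨s, t⟩ := j
      have hjs : s ∈ (D i).primeFactors := hjs
      have hsR : s ∈ R1 D := (Finset.mem_product.1 hj).1
      have hs1 : s % 3 = 1 := (Finset.mem_filter.1 hsR).2
      have hor := (hin s hjs hs1).2
      have e := hE s ((hmem _).2 (Or.inl hjs)) hs1
      have e1 := hsum fun r => lam s r * (g r - g s)
      simp only [← mul_assoc] at e1
      rw [e1, has s hjs, zero_mul] at e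
      have e2 : ∑ r ∈ (D i).primeFactors, mu (D i) r * lam s r * (g r - g s) = 0 := by
        refine Finset.sum_eq_zero fun r hr => ?_
        rw [hgs r hr, hgs s hjs, sub_self, mul_zero]
      have e3 : ∑ k ∈ J, lam s (ℓ k) * (g (ℓ k) - g s) =
          g (ℓ (s, true)) + g (ℓ (s, false)) := by
        have e4 : ∀ k ∈ J, lam s (ℓ k) * (g (ℓ k) - g s) = if s = k.1 then g (ℓ k) else 0 := by
          intro k hk
          rw [h2 k hk s hsR, hgs s hjs, sub_zero]
          split_ifs
          · rw [one_mul]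
          · rw [zero_mul]
        rw [Finset.sum_congr rfl e4, hJ, Finset.sum_product]
        have e5 : ∀ x ∈ R1 D, ∑ t ∈ (Finset.univ : Finset Bool), (if s = x then g (ℓ (x, t)) else 0) =
            if s = x then g (ℓ (x, true)) + g (ℓ (x, false)) else 0 := by
          intro x _
          rw [Fintype.sum_bool]
          split_ifs
          · rfl
          · rw [add_zero]
        rw [Finset.sum_congr rfl e5, Finset.sum_ite_eq, if_pos hsR]
      rw [e2, e3, zero_add] at e
      cases t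
      · rcases hor with h | h
        · rw [h, zero_add] at e
          exact e
        · exact h
      · rcases hor with h | h
        · exact h
        · rw [h, add_zero] at e
          exact e
    · exact hout j hj hjs
  intro p hp
  rcases (hmem p).1 hp with h | ⟨j, hj, rfl⟩
  · exact hgs p h
  · exact hgl j hj

end

end Q283.TE
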