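import Pool.Agent.Q283.TQ.Fin

/-!
# Primes with prescribed cubic residue symbols in both directions
-/

set_option autoImplicit false
set_option linter.unusedSectionVars false

open scoped Classical

namespace Q283.TE

open NumberField Filter Topology Finset Pool.Agent.W401.Cheb
open Pool.Agent.Y703.CX
open Pool.Agent.Y703.CT (Cls NoSplit Base)
open Pool.Agent.Y692.QS
open Pool.Agent.Y715.T.Rec (cs nn)
open Pool.Agent.Y715.T.RecG (Pq)
open Pool.Agent.Y405.CT (pq_star)
open Pool.Agent.Y333.CX (pp_spec t_LAM)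
open Q283.TC (NT few_inert sqrt_div_pc mod_three ex Dat HH exists_field cs_w nr_form fin_nr)
open Q283.TQ

theorem exists_dat (P : Finset Ei) : ∃ (L : Type) (_ : Field L) (_ : NumberField L)
    (_ : IsGalois ℚ L), Nonempty (Dat L P) := by
  obtain ⟨L, hL, hN, hG, z, hz, s, hs⟩ := exists_field (insert w P)
  have hzint : IsIntegral ℤ z := by
    refine ⟨Polynomial.X ^ 2 + Polynomial.X + 1, ?_, ?_⟩
    · monicity!
    · simp
      linear_combination hz
  obtain ⟨Z, hZz⟩ : ∃ Z : 𝓞 L, algebraMap (𝓞 L) L Z = z := ⟨⟨z, hzint⟩, rfl⟩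
  have hinj : Function.Injective (algebraMap (𝓞 L) L) := RingOfIntegers.coe_injective
  have hZ : Z * Z = -1 - Z := by
    apply hinj
    rw [map_mul, map_sub, map_neg, map_one, hZz, hz]
  have hhom : ∀ x : Ei, algebraMap (𝓞 L) L (hom Z hZ x) = hom z hz x := by
    intro x
    rw [hom_apply, hom_apply, map_add, map_mul, map_intCast, map_intCast, hZz]
  have hsint : ∀ q : Ei, ∃ t : 𝓞 L, q ∈ insert w P → t ^ 3 = hom Z hZ q := by
    intro q
    by_cases hq : q ∈ insert w P
    · have h1 : IsIntegral ℤ (s q) := by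
        have h2 : IsIntegral ℤ (s q ^ 3) := by
          rw [hs q hq, ← hhom]
          exact RingOfIntegers.isIntegral_coe _
        exact IsIntegral.of_pow (by norm_num) h2
      obtain ⟨t, ht⟩ : ∃ t : 𝓞 L, algebraMap (𝓞 L) L t = s q := ⟨⟨s q, h1⟩, rfl⟩
      refine ⟨t, fun _ => hinj ?_⟩
      rw [map_pow, hhom, ht]
      exact hs q hq
    · exact ⟨0, fun h => absurd h hq⟩
  choose t ht using hsint
  let E : Dat L P :=
    { Z := Z
      hZ := hZ
      s := t
      hw := ht w (Finset.mem_insert_self _ _)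
      hs := fun q hq => ht q (Finset.mem_insert_of_mem hq) }
  exact ⟨L, hL, hN, hG, ⟨E⟩⟩

/-- **A prime of degree one with given symbols.** -/
theorem exists_symbols (P : Finset Ei) (hP : ∀ q ∈ P, Pq q) (x0 : P → ZMod 3) (B : ℕ) :
    ∃ π : Ei, Pq π ∧ (nr π).natAbs.Prime ∧ (B : ℤ) < nr π ∧ cs π w = 0 ∧
      ∀ q : P, cs π q = x0 q := by
  obtain ⟨L, hL, hN, hG, ⟨E⟩⟩ := exists_dat P
  set T : Ei → Prop := fun π => (fun q : P => cs π q, cs π w) = (x0, (0 : ZMod 3)) with hT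
  have h1 := E.dens hP (fun x => x = (x0, (0 : ZMod 3))) T (fun π _ _ => Iff.rfl)
  have hc : Nat.card {x : (P → ZMod 3) × ZMod 3 // x = (x0, (0 : ZMod 3))} = 1 := by
    rw [Nat.card_eq_one_iff_unique]
    exact ⟨⟨fun a b => Subtype.ext (a.2.trans b.2.symm)⟩, ⟨⟨_, rfl⟩⟩⟩
  have h2 := Nat.card_pos (α := HH E.Z)
  have h3 := Nat.card_pos (α := Gal(L/ℚ))
  have hlpos : (0 : ℝ) < 2 * (Nat.card (HH E.Z) : ℝ) / (Nat.card Gal(L/ℚ) : ℝ) *
      ((Nat.card {x : (P → ZMod 3) × ZMod 3 // x = (x0, (0 : ZMod 3))} : ℝ) / 3 ^ (P.card + 1)) := by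
    rw [hc]
    positivity
  by_contra hno
  push Not at hno
  set C : ℕ := {x : Ei | nr x ≤ B}.ncard with hC
  have hle : ∀ X : ℕ, NT T X ≤ (2 * X.sqrt + 1) + C := by
    intro X
    have hsub : {π : Ei | Pq π ∧ nr π ≤ X ∧ T π} ⊆
        {π : Ei | Pq π ∧ nr π ≤ X ∧ T π ∧ ¬ (nr π).natAbs.Prime} ∪ {x : Ei | nr x ≤ B} := by
      rintro π ⟨a, b, c⟩
      by_cases hp : (nr π).natAbs.Prime
      · right
        show nr π ≤ B
        by_contra hlt
        push Not at hlt
        obtain ⟨q, hq⟩ := hno π a hp hlt (congrArg Prod.snd c)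
        exact hq (congrFun (congrArg Prod.fst c) q)
      · left
        exact ⟨a, b, c, hp⟩
    have hfin : ({π : Ei | Pq π ∧ nr π ≤ X ∧ T π ∧ ¬ (nr π).natAbs.Prime} ∪
        {x : Ei | nr x ≤ B}).Finite := by
      refine Set.Finite.union ((fin_nr X).subset ?_) (fin_nr B)
      rintro π ⟨-, b, -⟩
      exact b
    unfold NT
    refine (Set.ncard_le_ncard hsub hfin).trans ((Set.ncard_union_le _ _).trans ?_)
    exact Nat.add_le_add (few_inert T X) le_rfl
  have h4 : Tendsto (fun X : ℕ => (((2 * X.sqrt + 1) + C : ℕ) : ℝ) / (Nat.primeCounting X : ℝ))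
      atTop (𝓝 0) := by
    have h5 : Tendsto (fun X : ℕ => (C : ℝ) / (Nat.primeCounting X : ℝ)) atTop (𝓝 0) :=
      tendsto_const_nhds.div_atTop
        (tendsto_natCast_atTop_atTop.comp Nat.tendsto_primeCounting)
    have h6 := sqrt_div_pc.add h5
    rw [add_zero] at h6
    refine h6.congr fun X => ?_
    rw [← add_div]
    push_cast
    rfl
  have h7 : Tendsto (fun X : ℕ => (NT T X : ℝ) / (Nat.primeCounting X : ℝ)) atTop (𝓝 0) := by
    refine squeeze_zero (fun X => by positivity) (fun X => ?_) h4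
    refine div_le_div_of_nonneg_right ?_ (Nat.cast_nonneg _)
    exact_mod_cast hle X
  have h8 := tendsto_nhds_unique h1 h7
  linarith

section
variable {n : ℕ} (D : Fin n → ℕ) (hD : ∀ i, Bs (D i))

include hD in
/-- **A rational prime with given symbols in both directions.** -/
theorem exists_prime (α β : ℕ → ZMod 3) (B : ℕ) : ∃ l : ℕ, l.Prime ∧ l % 9 = 1 ∧ B < l ∧
    (∀ i, ¬ l ∣ D i) ∧ (∀ p ∈ R1 D, lam p l = α p) ∧
    ((∀ r ∈ RR D, lam l r = β r) ∨ (∀ r ∈ RR D, lam l r = - β r)) := by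
  obtain ⟨x, hx⟩ := (Phi_bij D).2 (fun p => α p, fun r => β r)
  obtain ⟨π, h1, h2, h3, h4, h5⟩ := exists_symbols (PE D) (PE_pq D hD) x (B + ∑ i, D i)
  set l := (nr π).natAbs with hl
  have hn : nr π = l := (Int.natAbs_of_nonneg (nr_nonneg π)).symm
  have hlD : ∀ i, ¬ l ∣ D i := by
    intro i h
    have h6 : l ≤ D i := Nat.le_of_dvd (Nat.pos_of_ne_zero (hD i).ne_zero) h
    have h7 : D i ≤ ∑ i, D i := Finset.single_le_sum (fun _ _ => Nat.zero_le _) (Finset.mem_univ i)
    have h8 : ((B + ∑ i, D i : ℕ) : ℤ) < l := by rw [← hn]; exact h3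
    have h9 : B + ∑ i, D i < l := by exact_mod_cast h8
    omega
  have hBl : B < l := by
    have h8 : ((B + ∑ i, D i : ℕ) : ℤ) < l := by rw [← hn]; exact h3
    have h9 : B + ∑ i, D i < l := by exact_mod_cast h8
    omega
  have hl3 : l ≠ 3 := by
    intro h
    apply h1.norm
    refine ⟨star π, ?_⟩
    rw [mul_star, hn, h]
    rfl
  have hl1 : l % 3 = 1 := mod_three hn h2 hl3
  have hl9 : l % 9 = 1 := by
    have h6 := nr_form h1
    rw [hn] at h6
    have h7 : l = 3 * nn π + 1 := by exact_mod_cast h6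
    have h8 := h4
    rw [cs_w h1, ZMod.natCast_eq_zero_iff] at h8
    omega
  have hex : ∀ q (h : q ∈ PE D), ex (PE D) x q = cs π q := by
    intro q hq
    unfold ex
    rw [dif_pos hq, h5 ⟨q, hq⟩]
  have hrl : ∀ r ∈ RR D, r ≠ l := by
    rintro r hr rfl
    obtain ⟨i, -, h⟩ := Finset.mem_biUnion.1 hr
    exact hlD i (Nat.dvd_of_mem_primeFactors h)
  have ha : ∀ p ∈ R1 D, aa π p = α p := by
    intro p hp
    have h6 := congrFun (congrArg Prod.fst hx) ⟨p, hp⟩
    have h7 : AX (ex (PE D) x) p = α p := h6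
    obtain ⟨a, b⟩ := Finset.mem_filter.1 hp
    rw [← h7]
    unfold aa AX
    rw [hex _ (pp_mem D a b), hex _ (star_mem D a b)]
  have hb : ∀ r ∈ RR D, bb π r = β r := by
    intro r hr
    have h6 := congrFun (congrArg Prod.snd hx) ⟨r, hr⟩
    have h7 : BX (ex (PE D) x) r = β r := h6
    rw [← h7]
    unfold bb BX
    by_cases hr1 : r % 3 = 1
    · rw [if_pos hr1, if_pos hr1, hex _ (pp_mem D hr hr1), hex _ (star_mem D hr hr1)]
    · rw [if_neg hr1, if_neg hr1, hex _ (neg_mem' D hr hr1)]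
  refine ⟨l, h2, hl9, hBl, hlD, ?_, ?_⟩
  · intro p hp
    obtain ⟨a, b⟩ := Finset.mem_filter.1 hp
    rw [lam_aa h1 hn h2 (prime_RR D a) b (hrl p a), ha p hp]
  · rcases lam_bb h1 hn h2 hl1 with h | h
    · left
      intro r hr
      rw [h r (prime_RR D hr) (case_RR D hD hr) (hrl r hr), hb r hr]
    · right
      intro r hr
      rw [h r (prime_RR D hr) (case_RR D hD hr) (hrl r hr), hb r hr]

end

end Q283.TE
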